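import Mathlib
set_option autoImplicit false

/-! Reflexive bisymmetric strictly increasing operations are continuous: statements. -/

namespace Pool.Agent.W203.BY

/-- reflexive, bisymmetric, strictly increasing in each variable -/
structure Op {I : Type} [LinearOrder I] (G : I → I → I) : Prop where
  refl : ∀ x, G x x = x
  bis : ∀ x y u v, G (G x y) (G u v) = G (G x u) (G y v)
  m1 : ∀ y, StrictMono (fun x => G x y)
  m2 : ∀ x, StrictMono (G x)

/-- `a` least, `b` greatest element; `z > a` is the infimum of the iterates of `G a` at `b`: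
impossible -/
def S_ARCH : Prop := ∀ (I : Type) [LinearOrder I] (a b z : I) (G : I → I → I) (ι : I → ℝ),
  (∀ x, a ≤ x) → (∀ x, x ≤ b) → Op G → StrictMono ι →
  (∀ u v : ℕ → I, Monotone u → Antitone v → (∀ n, u n ≤ v n) → ∃ w, ∀ n, u n ≤ w ∧ w ≤ v n) →
  a < z → (∀ n : ℕ, z < (G a)^[n] b) → (∀ s, z < s → ∃ n : ℕ, (G a)^[n] b < s) → False

/-- the iterates of `G · p` converge to `p`, from above and from below -/
def S_LIM : Prop := ∀ (a b : ℝ) (G : Set.Icc a b → Set.Icc a b → Set.Icc a b), Op G →
  ∀ p q c : Set.Icc a b,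
    (p < c → p < q → ∃ n : ℕ, (fun x => G x p)^[n] q < c) ∧
    (c < p → q < p → ∃ n : ℕ, c < (fun x => G x p)^[n] q)

/-- continuity in each variable -/
def S_ONE : Prop := ∀ (a b : ℝ) (n : ℕ), 2 ≤ n → ∀ F : (Fin n → Set.Icc a b) → Set.Icc a b,
  (∀ x : Set.Icc a b, F (fun _ => x) = x) →
  (∀ M : Fin n → Fin n → Set.Icc a b,
    F (fun i => F (M i)) = F (fun j => F (fun i => M i j))) →
  (∀ (x : Fin n → Set.Icc a b) (i : Fin n),
    StrictMono (fun t : Set.Icc a b => F (Function.update x i t))) →
  ∀ (x : Fin n → Set.Icc a b) (i : Fin n),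
    Continuous (fun t : Set.Icc a b => F (Function.update x i t))

/-- separately continuous and separately monotone functions are continuous -/
def S_JC : Prop := ∀ (a b : ℝ) (n : ℕ) (F : (Fin n → Set.Icc a b) → Set.Icc a b),
  (∀ (x : Fin n → Set.Icc a b) (i : Fin n),
    Monotone (fun t : Set.Icc a b => F (Function.update x i t))) →
  (∀ (x : Fin n → Set.Icc a b) (i : Fin n),
    Continuous (fun t : Set.Icc a b => F (Function.update x i t))) → Continuous F

end Pool.Agent.W203.BY
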